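import Mathlib
import Pool.Agent.R333.PS1

/-!
# The intersection property for the triple `σ₁, σ₂, σ₃` in `PSL(2, q)`

The intersection property holds for all admissible data. After conjugation by
`P = [[ω₁, 1], [-ω₁, 1]]` the group `⟨σ₁, σ₂⟩` lies in `PSL(2, p^e₁)`, and `⟨σ₂, σ₃⟩` lies in the
conjugate of `PSL(2, p^e₂)` by `T = [[1, t], [0, 1]]`, `t = x / ω₂`, where `t` is not a sum of
elements of the two subfields.
-/

set_option linter.style.haveILetI false

open Matrix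

namespace Pool.Agent.Results.MP_5bb224_al.IntersectionProperty

open Pool.Agent.R333.PS

variable {K : Type*} [Field K]

/-- Conjugation by an invertible matrix. -/
noncomputable def cj (P : Matrix (Fin 2) (Fin 2) K) (hP : IsUnit P.det) :
    SpecialLinearGroup (Fin 2) K →* SpecialLinearGroup (Fin 2) K where
  toFun g := ⟨P⁻¹ * g.1 * P, by
    rw [det_mul, det_mul, g.2, mul_one, ← det_mul, nonsing_inv_mul P hP, det_one]⟩
  map_one' := by
    apply Subtype.ext
    show P⁻¹ * (1 : Matrix (Fin 2) (Fin 2) K) * P = 1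
    rw [mul_one, nonsing_inv_mul P hP]
  map_mul' a b := by
    apply Subtype.ext
    show P⁻¹ * (a.1 * b.1) * P = (P⁻¹ * a.1 * P) * (P⁻¹ * b.1 * P)
    have : P * P⁻¹ = 1 := mul_nonsing_inv P hP
    calc P⁻¹ * (a.1 * b.1) * P = P⁻¹ * a.1 * 1 * b.1 * P := by
          rw [mul_one]; simp only [Matrix.mul_assoc]
      _ = P⁻¹ * a.1 * (P * P⁻¹) * b.1 * P := by rw [this]
      _ = _ := by simp only [Matrix.mul_assoc]

lemma cj_val (P : Matrix (Fin 2) (Fin 2) K) (hP : IsUnit P.det)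
    (g : SpecialLinearGroup (Fin 2) K) : (cj P hP g).1 = P⁻¹ * g.1 * P := rfl

/-- The subgroup of matrices with entries in a subfield. -/
def SF (F : Subfield K) : Subgroup (SpecialLinearGroup (Fin 2) K) where
  carrier := {g | ∀ i j, (g : Matrix (Fin 2) (Fin 2) K) i j ∈ F}
  mul_mem' := by
    intro a b ha hb i j
    show (a.1 * b.1) i j ∈ F
    rw [Matrix.mul_apply]
    exact sum_mem fun k _ => mul_mem (ha i k) (hb k j)
  one_mem' := by
    intro i j
    show (1 : Matrix (Fin 2) (Fin 2) K) i j ∈ F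
    rw [Matrix.one_apply]
    split_ifs
    · exact one_mem F
    · exact zero_mem F
  inv_mem' := by
    intro a ha i j
    have h1 : ((a⁻¹ : SpecialLinearGroup (Fin 2) K) : Matrix (Fin 2) (Fin 2) K) =
        !![a 1 1, -a 0 1; -a 1 0, a 0 0] := by
      rw [Matrix.SpecialLinearGroup.coe_inv, adjugate_fin_two]
    rw [h1]
    fin_cases i <;> fin_cases j
    · exact ha 1 1
    · exact neg_mem (ha 0 1)
    · exact neg_mem (ha 1 0)
    · exact ha 0 0

lemma conj_eq (P M s : Matrix (Fin 2) (Fin 2) K) (hP : IsUnit P.det) (h : P * M = s * P) :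
    P⁻¹ * s * P = M := by
  rw [Matrix.mul_assoc, ← h, ← Matrix.mul_assoc, nonsing_inv_mul P hP, Matrix.one_mul]

lemma mul_conj (Q B : Matrix (Fin 2) (Fin 2) K) (hQ : IsUnit Q.det) :
    Q * (Q⁻¹ * B * Q) = B * Q := by
  rw [← Matrix.mul_assoc, ← Matrix.mul_assoc, mul_nonsing_inv Q hQ, Matrix.one_mul]

lemma upow (k : ℕ) : (!![(1 : K), 1; 0, 1]) ^ k = !![1, (k : K); 0, 1] := by
  induction k with
  | zero =>
    rw [pow_zero]
    ext i j
    fin_cases i <;> fin_cases j <;> simp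
  | succ k ih =>
    rw [pow_succ, ih]
    ext i j
    fin_cases i <;> fin_cases j <;> simp [Matrix.mul_apply, Fin.sum_univ_two]
    ring

/-- **The intersection property.** -/
theorem result (p e₁ e₂ : ℕ) [hp : Fact p.Prime] (hp2 : p ≠ 2) (he₁ : 1 < e₁) (he₂ : 1 < e₂)
    (ho₁ : Odd e₁) (ho₂ : Odd e₂) (hcop : e₁.Coprime e₂)
    (K : Type*) [Field K] [Fintype K] (hK : Fintype.card K = p ^ (e₁ * e₂))
    (j₁ j₂ : K) (hj₁ : orderOf j₁ = p ^ e₁ - 1) (hj₂ : orderOf j₂ = p ^ e₂ - 1)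
    (ω₁ ω₂ : K) (hω₁ : ω₁ = j₁ + j₁⁻¹) (hω₂ : ω₂ = j₂ + j₂⁻¹)
    (r : K) (hr : r ^ 2 = ω₁ ^ 2 * ω₂ ^ 2 - 4 * (ω₁ ^ 2 + ω₂ ^ 2))
    (σ₁ σ₂ σ₃ : SpecialLinearGroup (Fin 2) K)
    (hσ₁ : (σ₁ : Matrix (Fin 2) (Fin 2) K) = (1 / 2 : K) • !![ω₁, ω₁ + 2; ω₁ - 2, ω₁])
    (hσ₂ : (σ₂ : Matrix (Fin 2) (Fin 2) K) = (1 / 2 : K) • !![2 + ω₁, ω₁; -ω₁, 2 - ω₁])
    (hσ₃ : (σ₃ : Matrix (Fin 2) (Fin 2) K) =
      !![ω₂ / (2 * ω₁) * (ω₁ - 2), r / (2 * ω₁); r / (2 * ω₁), ω₂ / (2 * ω₁) * (ω₁ + 2)]) :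
    Subgroup.closure {(σ₁ : ProjectiveSpecialLinearGroup (Fin 2) K), ↑σ₂} ⊓
      Subgroup.closure {(σ₂ : ProjectiveSpecialLinearGroup (Fin 2) K), ↑σ₃} =
    Subgroup.zpowers (σ₂ : ProjectiveSpecialLinearGroup (Fin 2) K) := by
  haveI : CharP K p := charP_of_card_eq_prime_pow hK
  obtain ⟨hw1, hj1F, hn1⟩ := omega_props p hp2 he₁ ho₁ hj₁
  obtain ⟨hw2, hj2F, hn2⟩ := omega_props p hp2 he₂ ho₂ hj₂
  rw [← hω₁] at hw1 hn1
  rw [← hω₂] at hw2 hn2
  have hF1 : ω₁ ∈ FF K p e₁ := by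
    rw [hω₁]
    exact add_mem hj1F (inv_mem hj1F)
  have hF2 : ω₂ ∈ FF K p e₂ := by
    rw [hω₂]
    exact add_mem hj2F (inv_mem hj2F)
  have h2ne : (2 : K) ≠ 0 := by
    intro h0
    have h3 : ((2 : ℕ) : K) = 0 := by exact_mod_cast h0
    rw [CharP.cast_eq_zero_iff K p] at h3
    exact hp2 ((Nat.prime_dvd_prime_iff_eq hp.out Nat.prime_two).1 h3)
  have hnat1 : ∀ k : ℕ, (k : K) ∈ FF K p e₁ := fun k => natCast_mem _ k
  have hnat2 : ∀ k : ℕ, (k : K) ∈ FF K p e₂ := fun k => natCast_mem _ k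
  set t : K := r / (2 * ω₁ * ω₂) with ht
  set P : Matrix (Fin 2) (Fin 2) K := !![ω₁, 1; -ω₁, 1] with hPdef
  set T : Matrix (Fin 2) (Fin 2) K := !![1, t; 0, 1] with hTdef
  have hPdet : P.det = 2 * ω₁ := by
    rw [hPdef, det_fin_two_of]; ring
  have hTdet : T.det = 1 := by
    rw [hTdef, det_fin_two_of]; ring
  have hPu : IsUnit P.det := by
    rw [hPdet]
    exact (mul_ne_zero h2ne hw1).isUnit
  have hTu : IsUnit T.det := by rw [hTdet]; exact isUnit_one
  set Q : Matrix (Fin 2) (Fin 2) K := P * T with hQdef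
  have hQu : IsUnit Q.det := by
    rw [hQdef, det_mul]
    exact hPu.mul hTu
  -- the conjugated generators
  have c1 : P * !![0, 1 / ω₁; -ω₁, ω₁] = σ₁.1 * P := by
    rw [hσ₁, hPdef]
    ext i j
    fin_cases i <;> fin_cases j <;> simp [Matrix.mul_apply, Fin.sum_univ_two] <;> field_simp <;>
      ring
  have c2 : P * !![1, 1; 0, 1] = σ₂.1 * P := by
    rw [hσ₂, hPdef]
    ext i j
    fin_cases i <;> fin_cases j <;> simp [Matrix.mul_apply, Fin.sum_univ_two] <;> field_simp <;>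
      ring
  have c2' : Q * !![1, 1; 0, 1] = σ₂.1 * Q := by
    rw [hQdef, ← Matrix.mul_assoc, ← c2, Matrix.mul_assoc, Matrix.mul_assoc]
    congr 1
    rw [hTdef]
    ext i j
    fin_cases i <;> fin_cases j <;> simp [Matrix.mul_apply, Fin.sum_univ_two]
    ring
  have c3 : Q * !![ω₂ / 2, (1 - ω₂ ^ 2 / 4) / ω₂; -ω₂, ω₂ / 2] = σ₃.1 * Q := by
    have h4ne : (4 : K) ≠ 0 := by
      have : (4 : K) = 2 * 2 := by norm_num
      rw [this]
      exact mul_ne_zero h2ne h2ne
    rw [hσ₃, hQdef, hPdef, hTdef, ht]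
    ext i j
    fin_cases i <;> fin_cases j <;> simp [Matrix.mul_apply, Fin.sum_univ_two] <;> field_simp
    · ring
    · linear_combination 4 * hr
    · ring
    · linear_combination (-4) * hr
  -- the two subgroups
  set S1 : Subgroup (SpecialLinearGroup (Fin 2) K) := (SF (FF K p e₁)).comap (cj P hPu) with hS1
  set S2 : Subgroup (SpecialLinearGroup (Fin 2) K) := (SF (FF K p e₂)).comap (cj Q hQu) with hS2
  have m0 : (0 : K) ∈ FF K p e₁ := zero_mem _
  have m1 : (1 : K) ∈ FF K p e₁ := one_mem _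
  have n0 : (0 : K) ∈ FF K p e₂ := zero_mem _
  have n1 : (1 : K) ∈ FF K p e₂ := one_mem _
  have n2 : (2 : K) ∈ FF K p e₂ := by exact_mod_cast hnat2 2
  have n4 : (4 : K) ∈ FF K p e₂ := by exact_mod_cast hnat2 4
  have hσ₁S : σ₁ ∈ S1 := by
    rw [hS1, Subgroup.mem_comap]
    intro i j
    rw [cj_val, conj_eq P _ σ₁.1 hPu c1]
    fin_cases i <;> fin_cases j
    · exact m0
    · exact div_mem m1 hF1
    · exact neg_mem hF1
    · exact hF1
  have hσ₂S : σ₂ ∈ S1 := by
    rw [hS1, Subgroup.mem_comap]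
    intro i j
    rw [cj_val, conj_eq P _ σ₂.1 hPu c2]
    fin_cases i <;> fin_cases j
    · exact m1
    · exact m1
    · exact m0
    · exact m1
  have hσ₂S' : σ₂ ∈ S2 := by
    rw [hS2, Subgroup.mem_comap]
    intro i j
    rw [cj_val, conj_eq Q _ σ₂.1 hQu c2']
    fin_cases i <;> fin_cases j
    · exact n1
    · exact n1
    · exact n0
    · exact n1
  have hσ₃S' : σ₃ ∈ S2 := by
    rw [hS2, Subgroup.mem_comap]
    intro i j
    rw [cj_val, conj_eq Q _ σ₃.1 hQu c3]
    fin_cases i <;> fin_cases j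
    · exact div_mem hF2 n2
    · exact div_mem (sub_mem n1 (div_mem (pow_mem hF2 2) n4)) hF2
    · exact neg_mem hF2
    · exact div_mem hF2 n2
  -- `t` is not a sum
  have ht2 : (2 * t) ^ 2 = 1 - 4 / ω₁ ^ 2 - 4 / ω₂ ^ 2 := by
    rw [ht]
    field_simp
    linear_combination hr
  have htkey : ∀ f1 ∈ FF K p e₁, ∀ f2 ∈ FF K p e₂, t ≠ f1 + f2 := by
    intro f1 hf1 f2 hf2 h
    have h2F1 : (2 : K) ∈ FF K p e₁ := by exact_mod_cast hnat1 2
    exact key p hp2 hcop hF1 hF2 hw1 hw2 hn1 hn2 ht2 (2 * f1) (2 * f2) (mul_mem h2F1 hf1)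
      (mul_mem n2 hf2) (by rw [h]; ring)
  apply le_antisymm
  · intro g hg
    obtain ⟨hg1, hg2⟩ := Subgroup.mem_inf.1 hg
    set π : SpecialLinearGroup (Fin 2) K →* ProjectiveSpecialLinearGroup (Fin 2) K :=
      QuotientGroup.mk' (Subgroup.center (SpecialLinearGroup (Fin 2) K)) with hπ
    have e1 : ({(σ₁ : ProjectiveSpecialLinearGroup (Fin 2) K), ↑σ₂} : Set _) =
        π '' {σ₁, σ₂} := by rw [Set.image_pair]; rfl
    have e2 : ({(σ₂ : ProjectiveSpecialLinearGroup (Fin 2) K), ↑σ₃} : Set _) =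
        π '' {σ₂, σ₃} := by rw [Set.image_pair]; rfl
    rw [e1, ← MonoidHom.map_closure] at hg1
    rw [e2, ← MonoidHom.map_closure] at hg2
    obtain ⟨a, ha, hag⟩ := hg1
    obtain ⟨b, hb, hbg⟩ := hg2
    have haS : a ∈ S1 := by
      have : Subgroup.closure {σ₁, σ₂} ≤ S1 := by
        rw [Subgroup.closure_le]
        intro x hx
        rcases hx with rfl | hx
        · exact hσ₁S
        · rw [Set.mem_singleton_iff] at hx
          rw [hx]; exact hσ₂S
      exact this ha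
    have hbS : b ∈ S2 := by
      have : Subgroup.closure {σ₂, σ₃} ≤ S2 := by
        rw [Subgroup.closure_le]
        intro x hx
        rcases hx with rfl | hx
        · exact hσ₂S'
        · rw [Set.mem_singleton_iff] at hx
          rw [hx]; exact hσ₃S'
      exact this hb
    have hab : a⁻¹ * b ∈ Subgroup.center (SpecialLinearGroup (Fin 2) K) := by
      apply QuotientGroup.eq.1
      exact hag.trans hbg.symm
    obtain ⟨c, hc2, hc⟩ := Matrix.SpecialLinearGroup.mem_center_iff.1 hab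
    rw [Fintype.card_fin] at hc2
    have hbc : b.1 = c • a.1 := by
      have h1 : b = a * (a⁻¹ * b) := by group
      have h2 : b.1 = a.1 * (a⁻¹ * b).1 := congrArg Subtype.val h1
      have h3 : (a⁻¹ * b).1 = c • (1 : Matrix (Fin 2) (Fin 2) K) := by
        have : (a⁻¹ * b).1 = scalar (Fin 2) c := hc.symm
        rw [this, scalar_apply, ← smul_one_eq_diagonal]
      rw [h2, h3, mul_smul_comm, mul_one]
    set M : Matrix (Fin 2) (Fin 2) K := P⁻¹ * a.1 * P with hM
    set N : Matrix (Fin 2) (Fin 2) K := Q⁻¹ * b.1 * Q with hN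
    have hMF : ∀ i j, M i j ∈ FF K p e₁ := fun i j => (Subgroup.mem_comap.1 haS) i j
    have hNF : ∀ i j, N i j ∈ FF K p e₂ := fun i j => (Subgroup.mem_comap.1 hbS) i j
    have hPM : P * M = a.1 * P := mul_conj P a.1 hPu
    have hQN : Q * N = b.1 * Q := mul_conj Q b.1 hQu
    have hTN : T * N = c • (M * T) := by
      have h1 : P * (T * N) = P * (c • (M * T)) := by
        rw [← Matrix.mul_assoc, ← hQdef, hQN, hbc, hQdef, smul_mul_assoc, ← Matrix.mul_assoc,
          ← hPM, mul_smul_comm, Matrix.mul_assoc]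
      have h2 := congrArg (fun Z => P⁻¹ * Z) h1
      simpa only [← Matrix.mul_assoc, nonsing_inv_mul P hPu, Matrix.one_mul] using h2
    have hMdet : M.det = 1 := by
      have := (cj P hPu a).2
      exact this
    have q00 : N 0 0 + t * N 1 0 = c * M 0 0 := by
      have := congrFun (congrFun hTN 0) 0
      simpa [hTdef, Matrix.mul_apply, Fin.sum_univ_two] using this
    have q01 : N 0 1 + t * N 1 1 = c * (M 0 0 * t + M 0 1) := by
      have := congrFun (congrFun hTN 0) 1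
      simpa [hTdef, Matrix.mul_apply, Fin.sum_univ_two] using this
    have q10 : N 1 0 = c * M 1 0 := by
      have := congrFun (congrFun hTN 1) 0
      simpa [hTdef, Matrix.mul_apply, Fin.sum_univ_two] using this
    have q11 : N 1 1 = c * (M 1 0 * t + M 1 1) := by
      have := congrFun (congrFun hTN 1) 1
      simpa [hTdef, Matrix.mul_apply, Fin.sum_univ_two] using this
    have hc2F : c ∈ FF K p e₂ ∧ c ∈ FF K p e₁ := by
      have h1 : (c - 1) * (c + 1) = 0 := by linear_combination hc2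
      rcases mul_eq_zero.1 h1 with h | h
      · rw [sub_eq_zero.1 h]; exact ⟨n1, m1⟩
      · rw [eq_neg_of_add_eq_zero_left h]; exact ⟨neg_mem n1, neg_mem m1⟩
    have hm10 : M 1 0 = 0 := by
      by_contra hne
      have h1 : M 1 0 = c * N 1 0 := by
        rw [q10]; linear_combination (-M 1 0) * hc2
      have h2 : M 1 0 ∈ FF K p e₂ := by
        rw [h1]; exact mul_mem hc2F.1 (hNF 1 0)
      apply htkey (-M 1 1 / M 1 0) (div_mem (neg_mem (hMF 1 1)) (hMF 1 0))
        (c * N 1 1 / M 1 0) (div_mem (mul_mem hc2F.1 (hNF 1 1)) h2)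
      rw [← add_div, eq_div_iff hne, q11]
      linear_combination (-(M 1 0 * t + M 1 1)) * hc2
    have hn10 : N 1 0 = 0 := by rw [q10, hm10, mul_zero]
    rw [hn10, mul_zero, add_zero] at q00
    rw [hm10, zero_mul, zero_add] at q11
    have hMdet2 : M 0 0 * M 1 1 = 1 := by
      rw [det_fin_two, hm10, mul_zero, sub_zero] at hMdet
      exact hMdet
    have h00F2 : M 0 0 ∈ FF K p e₂ := by
      have : M 0 0 = c * N 0 0 := by rw [q00]; linear_combination (-M 0 0) * hc2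
      rw [this]; exact mul_mem hc2F.1 (hNF 0 0)
    have h11F2 : M 1 1 ∈ FF K p e₂ := by
      have : M 1 1 = c * N 1 1 := by rw [q11]; linear_combination (-M 1 1) * hc2
      rw [this]; exact mul_mem hc2F.1 (hNF 1 1)
    have heq : M 0 0 = M 1 1 := by
      by_contra hne
      have hne' : M 0 0 - M 1 1 ≠ 0 := sub_ne_zero.2 hne
      apply htkey (-M 0 1 / (M 0 0 - M 1 1))
        (div_mem (neg_mem (hMF 0 1)) (sub_mem (hMF 0 0) (hMF 1 1)))
        (c * N 0 1 / (M 0 0 - M 1 1)) (div_mem (mul_mem hc2F.1 (hNF 0 1)) (sub_mem h00F2 h11F2))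
      rw [← add_div, eq_div_iff hne']
      rw [q11] at q01
      linear_combination (-c) * q01 + (t * (M 0 0 - M 1 1) + M 0 1) * (-1) * hc2
    have hsq : M 0 0 * M 0 0 = 1 := by
      rw [← heq] at hMdet2
      exact hMdet2
    have h01F2 : M 0 1 ∈ FF K p e₂ := by
      have : M 0 1 = c * N 0 1 := by
        rw [q11, ← heq] at q01
        linear_combination (-c) * q01 + (-M 0 1) * hc2
      rw [this]; exact mul_mem hc2F.1 (hNF 0 1)
    obtain ⟨k, hk⟩ := prime_field p
      (inter_FF p hcop (mul_mem (hMF 0 0) (hMF 0 1)) (mul_mem h00F2 h01F2))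
    -- `a = M 0 0 • σ₂ ^ k`
    have hMk : M = (M 0 0) • (!![(1 : K), 1; 0, 1]) ^ k := by
      have h01 : M 0 1 = M 0 0 * (k : K) := by
        rw [← hk]
        linear_combination (-M 0 1) * hsq
      rw [upow]
      ext i j
      fin_cases i <;> fin_cases j
      · simp
      · simpa using h01
      · simpa using hm10
      · simpa using heq.symm
    have hpow : P * (!![(1 : K), 1; 0, 1]) ^ k = σ₂.1 ^ k * P := by
      clear hk hMk
      induction k with
      | zero => simp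
      | succ k ih =>
        rw [pow_succ, pow_succ, ← Matrix.mul_assoc, ih, Matrix.mul_assoc, c2, ← Matrix.mul_assoc]
    have haeq : a.1 = (M 0 0) • σ₂.1 ^ k := by
      have h1 : a.1 * P = ((M 0 0) • σ₂.1 ^ k) * P := by
        calc a.1 * P = P * M := hPM.symm
          _ = P * ((M 0 0) • (!![(1 : K), 1; 0, 1]) ^ k) := congrArg (fun Z => P * Z) hMk
          _ = ((M 0 0) • σ₂.1 ^ k) * P := by rw [mul_smul_comm, hpow, smul_mul_assoc]
      have h2 := congrArg (fun Z => Z * P⁻¹) h1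
      simpa only [Matrix.mul_assoc, mul_nonsing_inv P hPu, Matrix.mul_one] using h2
    have hcent : a⁻¹ * σ₂ ^ k ∈ Subgroup.center (SpecialLinearGroup (Fin 2) K) := by
      rw [Matrix.SpecialLinearGroup.mem_center_iff]
      refine ⟨M 0 0, by rw [Fintype.card_fin, pow_two, hsq], ?_⟩
      have h1 : (σ₂ ^ k).1 = (M 0 0) • a.1 := by
        rw [haeq, smul_smul, hsq, one_smul]
        exact Matrix.SpecialLinearGroup.coe_pow σ₂ k
      have h2 : (a⁻¹ * σ₂ ^ k).1 = (a⁻¹ : SpecialLinearGroup (Fin 2) K).1 * (σ₂ ^ k).1 := rfl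
      have h3 : (a⁻¹ : SpecialLinearGroup (Fin 2) K).1 * a.1 = 1 :=
        congrArg Subtype.val (inv_mul_cancel a)
      have h4 : (a⁻¹ * σ₂ ^ k).1 = scalar (Fin 2) (M 0 0) := by
        rw [h2, h1, mul_smul_comm, h3, scalar_apply, ← smul_one_eq_diagonal]
      exact h4.symm
    rw [Subgroup.mem_zpowers_iff]
    refine ⟨k, ?_⟩
    have h5 : (a : ProjectiveSpecialLinearGroup (Fin 2) K) = ((σ₂ ^ k : _) :
        ProjectiveSpecialLinearGroup (Fin 2) K) := QuotientGroup.eq.2 hcent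
    rw [zpow_natCast, ← hag]
    exact h5.symm
  · rw [Subgroup.zpowers_le, Subgroup.mem_inf]
    exact ⟨Subgroup.subset_closure (Set.mem_insert_of_mem _ (Set.mem_singleton _)),
      Subgroup.subset_closure (Set.mem_insert _ _)⟩

end Pool.Agent.Results.MP_5bb224_al.IntersectionProperty
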